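import Pool.Agent.W207.SW.SpecS

set_option autoImplicit false

open Complex Filter Topology Set MeasureTheory
open scoped BigOperators

namespace W440.SW

open W207.PR (ct)
open W207.SW

theorem blm : S_BLM := by
  intro a b f h ha hb hf hh
  obtain ⟨p, hpc, hpe, hps, hpf⟩ := hf
  obtain ⟨q, hqc, hqe, hqs, hqh⟩ := hh
  refine ⟨fun x => ∫ t : ℝ, p t * q (x - t), ?_, ?_, ?_, ?_⟩
  · have h1 : (fun x => ∫ t : ℝ, p t * q (x - t)) = fun x => ∫ t in Icc (-a) a, p t * q (x - t) := by
      funext x
      refine (setIntegral_eq_integral_of_forall_compl_eq_zero ?_).symm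
      intro t ht
      rw [hps t, zero_mul]
      by_contra hlt
      push Not at hlt
      exact ht ⟨(abs_lt.1 hlt).1.le, (abs_lt.1 hlt).2.le⟩
    rw [h1]
    refine continuous_parametric_integral_of_continuous ?_ isCompact_Icc
    unfold Function.uncurry
    fun_prop
  · intro x
    show ∫ t : ℝ, p t * q (-x - t) = ∫ t : ℝ, p t * q (x - t)
    rw [← integral_neg_eq_self (fun t => p t * q (-x - t))]
    refine integral_congr_ae (Eventually.of_forall fun t => ?_)
    show p (-t) * q (-x - -t) = p t * q (x - t)
    rw [hpe, show -x - -t = -(x - t) by ring, hqe]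
  · intro x hx
    show ∫ t : ℝ, p t * q (x - t) = 0
    have : (fun t : ℝ => p t * q (x - t)) = fun _ => 0 := by
      funext t
      by_cases h1 : a ≤ |t|
      · rw [hps t h1, zero_mul]
      · push Not at h1
        rw [hqs (x - t), mul_zero]
        have h2 : |x| ≤ |x - t| + |t| := by
          have := abs_add_le (x - t) t
          rwa [sub_add_cancel] at this
        linarith
    rw [this, integral_zero]
  · intro u
    show f u * h u = ct (fun x => ∫ t : ℝ, p t * q (x - t)) u
    rw [hpf, hqh]
    unfold ct
    have h1 : ∀ x : ℝ, (∫ t : ℝ, p t * q (x - t)) * Real.cos (2 * Real.pi * x * u)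
        = ∫ t : ℝ, p t * q (x - t) * Real.cos (2 * Real.pi * x * u) := by
      intro x
      rw [integral_mul_const]
    simp_rw [h1]
    rw [integral_integral_swap_of_hasCompactSupport]
    · have hsin : ∫ s : ℝ, q s * Real.sin (2 * Real.pi * s * u) = 0 := by
        have h2 := integral_neg_eq_self (fun s : ℝ => q s * Real.sin (2 * Real.pi * s * u)) volume
        have h3 : (fun s : ℝ => q (-s) * Real.sin (2 * Real.pi * (-s) * u))
            = fun s => -(q s * Real.sin (2 * Real.pi * s * u)) := by
          funext s
          rw [hqe, show 2 * Real.pi * (-s) * u = -(2 * Real.pi * s * u) by ring, Real.sin_neg]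
          ring
        simp only [h3] at h2
        rw [integral_neg] at h2
        linarith
      have hqcs : HasCompactSupport q := by
        refine HasCompactSupport.intro (isCompact_Icc (a := -b) (b := b)) ?_
        intro s hs
        apply hqs
        by_contra hlt
        push Not at hlt
        exact hs ⟨(abs_lt.1 hlt).1.le, (abs_lt.1 hlt).2.le⟩
      have hi1 : Integrable (fun s : ℝ => q s * Real.cos (2 * Real.pi * s * u)) := by
        refine Continuous.integrable_of_hasCompactSupport (by fun_prop) ?_
        exact hqcs.mul_right
      have hi2 : Integrable (fun s : ℝ => q s * Real.sin (2 * Real.pi * s * u)) := by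
        refine Continuous.integrable_of_hasCompactSupport (by fun_prop) ?_
        exact hqcs.mul_right
      have h4 : ∀ t : ℝ, ∫ x : ℝ, p t * q (x - t) * Real.cos (2 * Real.pi * x * u)
          = p t * Real.cos (2 * Real.pi * t * u) * ∫ s : ℝ, q s * Real.cos (2 * Real.pi * s * u) := by
        intro t
        have h5 := integral_sub_right_eq_self (μ := volume)
          (fun s : ℝ => p t * q s * Real.cos (2 * Real.pi * (s + t) * u)) t
        have h6 : (fun x : ℝ => p t * q (x - t) * Real.cos (2 * Real.pi * x * u)) =
            fun x => p t * q (x - t) * Real.cos (2 * Real.pi * ((x - t) + t) * u) := by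
          funext x
          rw [sub_add_cancel]
        rw [h6, h5]
        have h7 : (fun s : ℝ => p t * q s * Real.cos (2 * Real.pi * (s + t) * u)) =
            fun s => p t * Real.cos (2 * Real.pi * t * u) * (q s * Real.cos (2 * Real.pi * s * u))
              - p t * Real.sin (2 * Real.pi * t * u) * (q s * Real.sin (2 * Real.pi * s * u)) := by
          funext s
          rw [show 2 * Real.pi * (s + t) * u = 2 * Real.pi * s * u + 2 * Real.pi * t * u by ring,
            Real.cos_add]
          ring
        rw [h7, integral_sub (hi1.const_mul _) (hi2.const_mul _), integral_const_mul,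
          integral_const_mul, hsin]
        ring
      simp_rw [h4]
      rw [integral_mul_const]
    · unfold Function.uncurry
      fun_prop
    · refine HasCompactSupport.intro ((isCompact_Icc (a := -(a + b)) (b := a + b)).prod
        (isCompact_Icc (a := -a) (b := a))) ?_
      rintro ⟨x, t⟩ hxt
      show p t * q (x - t) * Real.cos (2 * Real.pi * x * u) = 0
      by_cases h1 : a ≤ |t|
      · rw [hps t h1, zero_mul, zero_mul]
      · push Not at h1
        rw [hqs (x - t), mul_zero, zero_mul]
        have h2 : |x| ≤ |x - t| + |t| := by
          have := abs_add_le (x - t) t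
          rwa [sub_add_cancel] at this
        by_contra hlt
        push Not at hlt
        have h3 : |x| < a + b := by linarith
        exact hxt ⟨⟨(abs_lt.1 h3).1.le, (abs_lt.1 h3).2.le⟩, ⟨(abs_lt.1 h1).1.le, (abs_lt.1 h1).2.le⟩⟩

end W440.SW
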